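import Pool.Agent.H88.MC.Targets2

/-!
# Module SM1: a fixed bipartition is rarely balanced
-/

namespace Pool.Agent.H35.E0

open Finset Pool.Agent.H88.MC

theorem dg_lt {n : ℕ} (G : SimpleGraph (Fin n)) (v : Fin n) : dg G v + 1 ≤ n := by
  classical
  have h1 : nb G v ⊆ univ.erase v := by
    intro u hu
    rw [Finset.mem_erase]
    refine ⟨?_, Finset.mem_univ u⟩
    unfold nb at hu
    rw [Finset.mem_filter] at hu
    exact fun h => G.ne_of_adj hu.2 h.symm
  have h2 := Finset.card_le_card h1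
  rw [Finset.card_erase_of_mem (Finset.mem_univ v), Finset.card_univ, Fintype.card_fin] at h2
  have h3 : 0 < n := v.pos
  unfold dg
  omega

open scoped Classical in
/-- the vertices of `J` with small difference -/
theorem card_small {n : ℕ} {c : ℝ} (hc : 0 ≤ c) (G : SimpleGraph (Fin n)) (y : Fin n → Bool)
    (J : Finset (Fin n)) (hB : Bal c G y) :
    (#J : ℝ) - c * n ≤ #{v ∈ J | |(ay G y v : ℝ)| ≤ c * Real.sqrt n} := by
  have h1 : J ⊆ {v ∈ J | |(ay G y v : ℝ)| ≤ c * Real.sqrt n} ∪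
      ({v | c ^ 2 * (1 + dg G v) < (ay G y v : ℝ) ^ 2} : Finset (Fin n)) := by
    intro v hv
    rw [Finset.mem_union, Finset.mem_filter, Finset.mem_filter]
    by_cases h : c ^ 2 * (1 + dg G v) < (ay G y v : ℝ) ^ 2
    · exact Or.inr ⟨Finset.mem_univ v, h⟩
    · refine Or.inl ⟨hv, ?_⟩
      refine abs_le_of_sq_le_sq ?_ (by positivity)
      rw [mul_pow, Real.sq_sqrt (Nat.cast_nonneg n)]
      have h2 : (dg G v : ℝ) + 1 ≤ n := by exact_mod_cast dg_lt G v
      calc (ay G y v : ℝ) ^ 2 ≤ c ^ 2 * (1 + dg G v) := not_lt.1 h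
        _ ≤ c ^ 2 * n := by
          refine mul_le_mul_of_nonneg_left ?_ (sq_nonneg c)
          linarith
  have h2 := (Finset.card_le_card h1).trans (Finset.card_union_le _ _)
  have h3 : (#J : ℝ) ≤ #{v ∈ J | |(ay G y v : ℝ)| ≤ c * Real.sqrt n} +
      #{v | c ^ 2 * (1 + dg G v) < (ay G y v : ℝ) ^ 2} := by exact_mod_cast h2
  unfold Bal at hB
  linarith

theorem rho_bd {n : ℕ} {K m : ℝ} (hK : 1 ≤ K) (hn : 8192 * K ≤ n) (hm : n / (8 * K) ≤ m) :
    (2 * (1 / (256 * K) * Real.sqrt n) + 1) / Real.sqrt (m + 1) ≤ 1 / 16 := by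
  have hK0 : 0 < K := by linarith
  have hn0 : (0 : ℝ) ≤ n := Nat.cast_nonneg n
  have h0 : 0 ≤ n / (8 * K) := by positivity
  have hm1 : 0 < m + 1 := by linarith
  have ht : Real.sqrt n ^ 2 = n := Real.sq_sqrt hn0
  have ht0 := Real.sqrt_nonneg (n : ℝ)
  rw [div_le_div_iff₀ (Real.sqrt_pos.2 hm1) (by norm_num), one_mul]
  refine Real.le_sqrt_of_sq_le ?_
  have e1 : (2 * (1 / (256 * K) * Real.sqrt n) + 1) * 16 = Real.sqrt n / (8 * K) + 16 := by
    field_simp
    ring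
  rw [e1]
  have h1 : (Real.sqrt n / (8 * K) + 16) ^ 2 ≤ 2 * (Real.sqrt n / (8 * K)) ^ 2 + 2 * 16 ^ 2 := by
    nlinarith [sq_nonneg (Real.sqrt n / (8 * K) - 16)]
  have h2 : (Real.sqrt n / (8 * K)) ^ 2 = n / (64 * K ^ 2) := by
    rw [div_pow, ht]
    ring
  have h3 : (n : ℝ) / (64 * K ^ 2) ≤ n / (64 * K) := by
    refine div_le_div_of_nonneg_left hn0 (by positivity) ?_
    nlinarith
  have h4 : (512 : ℝ) ≤ n / (16 * K) := by
    rw [le_div_iff₀ (by positivity)]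
    linarith
  have h5 : 2 * ((n : ℝ) / (64 * K)) + n / (16 * K) ≤ n / (8 * K) := by
    have e2 : n / (8 * K) - (2 * ((n : ℝ) / (64 * K)) + n / (16 * K)) = n / (32 * K) := by
      field_simp
      ring
    have e3 : 0 ≤ (n : ℝ) / (32 * K) := by positivity
    linarith
  rw [h2] at h1
  linarith

open scoped Classical in
theorem pf_sm1 (hSM0 : T_SM0) (hSMB : T_SMB) : T_SM1 := by
  intro K hK
  have hK0 : 0 < K := by linarith
  refine ⟨1 / (256 * K), by positivity, ⌈8192 * K⌉₊, fun n hn F H hF y => ?_⟩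
  set c : ℝ := 1 / (256 * K) with hc
  have hc0 : 0 < c := by positivity
  have hnK : 8192 * K ≤ n := (Nat.le_ceil _).trans (by exact_mod_cast hn)
  obtain ⟨V₁, V₂, J, hV, hJ, hJn, hJm⟩ := hSMB n F K hK hF
  set A : ℝ := ((#{G : SimpleGraph (Fin n) | Agree F H G} : ℕ) : ℝ) with hA
  have hA0 : 0 ≤ A := Nat.cast_nonneg _
  set P : Finset (Finset (Fin n)) := {J' ∈ J.powerset | (#J : ℝ) - c * n ≤ #J'} with hP
  have h1 : ({G : SimpleGraph (Fin n) | Agree F H G ∧ Bal c G y} :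
      Finset (SimpleGraph (Fin n))) ⊆ P.biUnion fun J' =>
        {G : SimpleGraph (Fin n) | Agree F H G ∧ ∀ v ∈ J', |(ay G y v : ℝ)| ≤ c * Real.sqrt n} := by
    intro G hG
    obtain ⟨-, hG1, hG2⟩ := Finset.mem_filter.1 hG
    refine Finset.mem_biUnion.2 ⟨{v ∈ J | |(ay G y v : ℝ)| ≤ c * Real.sqrt n}, ?_, ?_⟩
    · exact Finset.mem_filter.2 ⟨Finset.mem_powerset.2 (Finset.filter_subset _ _),
        card_small hc0.le G y J hG2⟩
    · exact Finset.mem_filter.2 ⟨Finset.mem_univ _, hG1, fun v hv => (Finset.mem_filter.1 hv).2⟩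
  have h2 : ∀ J' ∈ P, (#{G : SimpleGraph (Fin n) | Agree F H G ∧
      ∀ v ∈ J', |(ay G y v : ℝ)| ≤ c * Real.sqrt n} : ℝ) ≤ 2 ^ (-4 * ((#J : ℝ) - c * n)) * A := by
    intro J' hJ'
    obtain ⟨hJ1, hJ2⟩ := Finset.mem_filter.1 hJ'
    have hJ1' := Finset.mem_powerset.1 hJ1
    refine (hSM0 n F H V₁ V₂ J' y (c * Real.sqrt n) (1 / 16) hV (hJ1'.trans hJ) (by positivity)
      (by norm_num) fun v hv => rho_bd hK hnK (hJm v (hJ1' hv))).trans ?_
    refine mul_le_mul_of_nonneg_right ?_ hA0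
    have e1 : (1 / 16 : ℝ) ^ #J' = 2 ^ (-4 * (#J' : ℝ)) := by
      rw [Real.rpow_mul (by norm_num), Real.rpow_natCast]
      norm_num
    rw [e1]
    exact Real.rpow_le_rpow_of_exponent_le (by norm_num) (by linarith)
  have h3 : (#P : ℝ) ≤ 2 ^ (#J : ℝ) := by
    have : #P ≤ 2 ^ #J := by
      rw [← Finset.card_powerset]
      exact Finset.card_le_card (Finset.filter_subset _ _)
    rw [Real.rpow_natCast]
    exact_mod_cast this
  calc (#{G : SimpleGraph (Fin n) | Agree F H G ∧ Bal c G y} : ℝ)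
      ≤ ∑ J' ∈ P, (#{G : SimpleGraph (Fin n) | Agree F H G ∧
          ∀ v ∈ J', |(ay G y v : ℝ)| ≤ c * Real.sqrt n} : ℝ) := by
        exact_mod_cast (Finset.card_le_card h1).trans Finset.card_biUnion_le
    _ ≤ ∑ _J' ∈ P, 2 ^ (-4 * ((#J : ℝ) - c * n)) * A := Finset.sum_le_sum h2
    _ = #P * (2 ^ (-4 * ((#J : ℝ) - c * n)) * A) := by rw [Finset.sum_const, nsmul_eq_mul]
    _ ≤ 2 ^ (#J : ℝ) * (2 ^ (-4 * ((#J : ℝ) - c * n)) * A) :=
        mul_le_mul_of_nonneg_right h3 (by positivity)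
    _ = 2 ^ ((#J : ℝ) + -4 * ((#J : ℝ) - c * n)) * A := by
        rw [Real.rpow_add (by norm_num), mul_assoc]
    _ ≤ 2 ^ (-(2 * c * n)) * A := by
        refine mul_le_mul_of_nonneg_right ?_ hA0
        refine Real.rpow_le_rpow_of_exponent_le (by norm_num) ?_
        have h4 : 6 * c * n ≤ 3 * (n / (8 * K)) := by
          have e2 : 3 * (n / (8 * K)) - 6 * c * n = 90 / 256 * (n / K) := by
            rw [hc]
            field_simp
            ring
          have e3 : 0 ≤ 90 / 256 * ((n : ℝ) / K) := by positivity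
          linarith
        linarith

end Pool.Agent.H35.E0
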