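import Pool.Agent.H35.E0.SPa

/-!
# Module SP: the spectral class
-/

namespace Pool.Agent.H35.E0

open Finset Pool.Agent.H88.MC

/-- the vectors that vanish on `B` -/
def ZB {n : ℕ} (B : Finset (Fin n)) : Submodule ℝ (Fin n → ℝ) where
  carrier := {w | ∀ v ∈ B, w v = 0}
  add_mem' := fun ha hb v hv => by rw [Pi.add_apply, ha v hv, hb v hv, add_zero]
  zero_mem' := fun _ _ => rfl
  smul_mem' := fun c w hw v hv => by rw [Pi.smul_apply, hw v hv, smul_zero]

theorem cut_dim {n : ℕ} (W : Submodule ℝ (Fin n → ℝ)) (B : Finset (Fin n)) :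
    Module.finrank ℝ W ≤ Module.finrank ℝ (W ⊓ ZB B : Submodule ℝ (Fin n → ℝ)) + #B := by
  set φ : W →ₗ[ℝ] (B → ℝ) :=
    (LinearMap.funLeft ℝ ℝ (fun v : B => (v : Fin n))).comp W.subtype with hφ
  have h1 := LinearMap.finrank_range_add_finrank_ker φ
  have h2 : Module.finrank ℝ (LinearMap.range φ) ≤ #B := by
    refine (Submodule.finrank_le _).trans ?_
    rw [Module.finrank_fintype_fun_eq_card, Fintype.card_coe]
  have h3 : Module.finrank ℝ (LinearMap.ker φ) ≤
      Module.finrank ℝ (W ⊓ ZB B : Submodule ℝ (Fin n → ℝ)) := by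
    set ψ : LinearMap.ker φ →ₗ[ℝ] (W ⊓ ZB B : Submodule ℝ (Fin n → ℝ)) :=
      LinearMap.codRestrict _ (W.subtype.comp (LinearMap.ker φ).subtype) (fun x => by
        refine Submodule.mem_inf.2 ⟨x.1.2, fun v hv => ?_⟩
        have h4 : φ x.1 = 0 := x.2
        exact congrFun h4 ⟨v, hv⟩) with hψ
    refine LinearMap.finrank_le_finrank_of_injective (f := ψ) ?_
    intro x y hxy
    apply Subtype.ext
    apply Subtype.ext
    exact congrArg (fun t : (W ⊓ ZB B : Submodule ℝ (Fin n → ℝ)) => (t : Fin n → ℝ)) hxy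
  omega

/-- the adjacency operator -/
noncomputable def AA {n : ℕ} (G : SimpleGraph (Fin n)) : (Fin n → ℝ) →ₗ[ℝ] (Fin n → ℝ) :=
  LinearMap.pi fun v => ∑ u ∈ nb G v, LinearMap.proj u

theorem AA_apply {n : ℕ} (G : SimpleGraph (Fin n)) (w : Fin n → ℝ) (v : Fin n) :
    AA G w v = ∑ u ∈ nb G v, w u := by
  unfold AA
  rw [LinearMap.pi_apply, LinearMap.sum_apply]
  rfl

theorem adj_symm {n : ℕ} (G : SimpleGraph (Fin n)) (w z : Fin n → ℝ) :
    ∑ v, AA G w v * z v = ∑ u, w u * ∑ v ∈ nb G u, z v := by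
  classical
  have e1 : ∀ v, AA G w v * z v = ∑ u, if G.Adj v u then w u * z v else 0 := by
    intro v
    rw [AA_apply, Finset.sum_mul]
    unfold nb
    rw [Finset.sum_filter]
  have e2 : ∀ u, w u * ∑ v ∈ nb G u, z v = ∑ v, if G.Adj u v then w u * z v else 0 := by
    intro u
    rw [Finset.mul_sum]
    unfold nb
    rw [Finset.sum_filter]
  simp_rw [e1, e2]
  rw [Finset.sum_comm]
  refine Finset.sum_congr rfl fun u _ => Finset.sum_congr rfl fun v _ => ?_
  by_cases h : G.Adj u v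
  · rw [if_pos h, if_pos h.symm]
  · rw [if_neg h, if_neg fun h' => h h'.symm]

theorem ay_real {n : ℕ} (G : SimpleGraph (Fin n)) (y : Fin n → Bool) (u : Fin n) :
    (ay G y u : ℝ) = ∑ v ∈ nb G u, sgr y v := by
  unfold ay
  push_cast
  refine Finset.sum_congr rfl fun v _ => ?_
  unfold sg sgr
  split_ifs <;> simp

/-- the estimate for one bipartition -/
theorem one_y {n : ℕ} {c c' : ℝ} (hc : 0 < c) (hc' : 0 ≤ c') (hcc : c' ≤ c / 2)
    (G : SimpleGraph (Fin n)) (y : Fin n → Bool) (B : Finset (Fin n))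
    (hB : ∀ v, v ∉ B → (ay G y v : ℝ) ^ 2 ≤ c' ^ 2 * (1 + dg G v)) (w : Fin n → ℝ)
    (hw0 : ∀ v ∈ B, w v = 0)
    (hw : c * ∑ v, (1 + dg G v : ℝ) * w v ^ 2 ≤ ∑ v, (∑ u ∈ nb G v, w u) ^ 2) (Q : ℝ)
    (h1 : ∑ v, AA G w v * sgr y v = Q) (h2 : ∑ v, AA G w v ^ 2 = Q) : Q ≤ c / 4 * n := by
  have hQ0 : 0 ≤ Q := by
    rw [← h2]
    exact Finset.sum_nonneg fun v _ => sq_nonneg _
  have hd : ∀ v, (0 : ℝ) < 1 + dg G v := fun v => by positivity
  set s : ℝ := ∑ v, (1 + dg G v : ℝ) * w v ^ 2 with hs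
  have hs0 : 0 ≤ s := Finset.sum_nonneg fun v _ => by positivity
  have hcs : c * s ≤ Q := by
    refine hw.trans (le_of_eq ?_)
    rw [← h2]
    exact Finset.sum_congr rfl fun v _ => by rw [AA_apply]
  have e1 : Q = ∑ v ∈ univ \ B, w v * ay G y v := by
    rw [← h1, adj_symm]
    have e2 : ∀ u, w u * ∑ v ∈ nb G u, sgr y v = w u * ay G y u := fun u => by rw [ay_real]
    simp_rw [e2]
    refine (Finset.sum_subset (Finset.subset_univ _) fun v _ hv => ?_).symm
    rw [Finset.mem_sdiff, not_and, not_not] at hv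
    rw [hw0 v (hv (Finset.mem_univ v)), zero_mul]
  have h3 : Q ^ 2 ≤ s * (c' ^ 2 * n) := by
    have h4 : Q ^ 2 ≤ (∑ v ∈ univ \ B, (1 + dg G v : ℝ) * w v ^ 2) *
        ∑ v ∈ univ \ B, (ay G y v : ℝ) ^ 2 / (1 + dg G v) := by
      rw [e1]
      refine Finset.sum_sq_le_sum_mul_sum_of_sq_le_mul _ (fun v _ => by positivity)
        (fun v _ => by positivity) fun v _ => le_of_eq ?_
      have := (hd v).ne'
      field_simp
    refine h4.trans (mul_le_mul ?_ ?_ (Finset.sum_nonneg fun v _ => by positivity) hs0)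
    · exact Finset.sum_le_sum_of_subset_of_nonneg (Finset.subset_univ _)
        fun v _ _ => by positivity
    · calc ∑ v ∈ univ \ B, (ay G y v : ℝ) ^ 2 / (1 + dg G v) ≤ ∑ v ∈ univ \ B, c' ^ 2 := by
            refine Finset.sum_le_sum fun v hv => ?_
            rw [div_le_iff₀ (hd v)]
            exact hB v (Finset.mem_sdiff.1 hv).2
        _ ≤ ∑ _v : Fin n, c' ^ 2 := Finset.sum_le_sum_of_subset_of_nonneg (Finset.subset_univ _)
            fun v _ _ => by positivity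
        _ = c' ^ 2 * n := by
            rw [Finset.sum_const, Finset.card_univ, Fintype.card_fin, nsmul_eq_mul, mul_comm]
  have hn0 : (0 : ℝ) ≤ n := Nat.cast_nonneg n
  have h5 : c' ^ 2 ≤ c ^ 2 / 4 := by nlinarith
  have h6 : c * Q ^ 2 ≤ Q * (c ^ 2 / 4 * n) := by
    calc c * Q ^ 2 ≤ c * (s * (c' ^ 2 * n)) := mul_le_mul_of_nonneg_left h3 hc.le
      _ = (c * s) * (c' ^ 2 * n) := by ring
      _ ≤ Q * (c ^ 2 / 4 * n) := by
          refine mul_le_mul hcs ?_ (by positivity) hQ0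
          exact mul_le_mul_of_nonneg_right h5 hn0
  rcases eq_or_lt_of_le hQ0 with h7 | h7
  · rw [← h7]
    positivity
  · have h8 : c * Q * (c * Q) ≤ c * Q * (c * (c / 4 * n)) := by nlinarith
    have h9 := le_of_mul_le_mul_left h8 (by positivity)
    exact le_of_mul_le_mul_left h9 hc

/-- the number of bipartitions with a given set of unbalanced vertices -/
theorem fiber (hHW : T_HW) {n : ℕ} {c c' : ℝ} (hc : 0 < c) (hc' : 0 ≤ c') (hcc : c' ≤ c / 2)
    (G : SimpleGraph (Fin n)) (W : Submodule ℝ (Fin n → ℝ))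
    (hWn : c * n ≤ Module.finrank ℝ W)
    (hW : ∀ w ∈ W, c * ∑ v, (1 + dg G v : ℝ) * w v ^ 2 ≤ ∑ v, (∑ u ∈ nb G v, w u) ^ 2)
    (B : Finset (Fin n)) (hB : (#B : ℝ) ≤ c' * n) (Y : Finset (Fin n → Bool))
    (hY : ∀ y ∈ Y, ∀ v, v ∉ B → (ay G y v : ℝ) ^ 2 ≤ c' ^ 2 * (1 + dg G v)) :
    (#Y : ℝ) ≤ 2 ^ n * Real.exp (-(7 / 960) * (c / 2 * n)) := by
  classical
  set WB : Submodule ℝ (Fin n → ℝ) := W ⊓ ZB B with hWB
  have hdim := cut_dim W B
  set L := (AA G).domRestrict WB with hL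
  have hinj : Function.Injective L := by
    rw [injective_iff_map_eq_zero]
    intro w hw
    have h1 := hW w.1 (Submodule.mem_inf.1 w.2).1
    have h2 : ∀ v, ∑ u ∈ nb G v, (w : Fin n → ℝ) u = 0 := by
      intro v
      rw [← AA_apply]
      exact congrFun hw v
    simp_rw [h2] at h1
    have h3 : ∑ v : Fin n, (0 : ℝ) ^ 2 = 0 := by simp
    rw [h3] at h1
    have h4 : ∑ v, (1 + dg G v : ℝ) * (w : Fin n → ℝ) v ^ 2 ≤ 0 := by
      by_contra h
      push Not at h
      have := mul_pos hc h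
      linarith
    have h5 : ∀ v ∈ (univ : Finset (Fin n)), (1 + dg G v : ℝ) * (w : Fin n → ℝ) v ^ 2 = 0 :=
      (Finset.sum_eq_zero_iff_of_nonneg fun v _ => by positivity).1
        (le_antisymm h4 (Finset.sum_nonneg fun v _ => by positivity))
    apply Subtype.ext
    funext v
    have h6 := h5 v (Finset.mem_univ v)
    have h7 : (1 + dg G v : ℝ) ≠ 0 := by positivity
    have h8 := (mul_eq_zero.1 h6).resolve_left h7
    exact pow_eq_zero_iff two_ne_zero |>.1 h8
  obtain ⟨K, hK1, hK2, hK3, hK4⟩ := proj (LinearMap.range L)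
  rw [LinearMap.finrank_range_of_inj hinj] at hK3
  have htr : c / 2 * n ≤ K.trace := by
    rw [hK3]
    have h1 : (Module.finrank ℝ W : ℝ) ≤ Module.finrank ℝ WB + #B := by exact_mod_cast hdim
    have h2 : c' * n ≤ c / 2 * n := mul_le_mul_of_nonneg_right hcc (Nat.cast_nonneg n)
    linarith
  have h1 : Y ⊆ ({y : Fin n → Bool | qf K (sgr y) ≤ K.trace / 2} : Finset (Fin n → Bool)) := by
    intro y hy
    rw [Finset.mem_filter]
    refine ⟨Finset.mem_univ y, ?_⟩
    obtain ⟨r, ⟨w, rfl⟩, hr1, hr2⟩ := hK4 (sgr y)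
    have h3 := one_y hc hc' hcc G y B (hY y hy) w.1 (Submodule.mem_inf.1 w.2).2
      (hW w.1 (Submodule.mem_inf.1 w.2).1) (qf K (sgr y)) hr1 hr2
    linarith
  have h2 : (#Y : ℝ) ≤ (#{y : Fin n → Bool | qf K (sgr y) ≤ K.trace / 2} : ℝ) := by
    exact_mod_cast Finset.card_le_card h1
  refine h2.trans ((hHW n K hK1 hK2).trans ?_)
  refine mul_le_mul_of_nonneg_left (Real.exp_le_exp.2 ?_) (by positivity)
  nlinarith

open scoped Classical in
theorem pf_sp (hHW : T_HW) (hBN : T_BN) : T_SP := by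
  intro c₀ hc₀
  obtain ⟨c, hcd⟩ : ∃ c, c = min c₀ 1 := ⟨_, rfl⟩
  have hc : 0 < c := by rw [hcd]; exact lt_min hc₀ one_pos
  have hc1 : c ≤ 1 := by rw [hcd]; exact min_le_right _ _
  have hcc₀ : c ≤ c₀ := by rw [hcd]; exact min_le_left _ _
  obtain ⟨δ, hδ⟩ : ∃ δ : ℝ, δ = 7 * c / 3840 := ⟨_, rfl⟩
  have hδ0 : 0 < δ := by rw [hδ]; positivity
  have hδ1 : δ ≤ 1 := by rw [hδ]; linarith
  obtain ⟨c', hc'⟩ : ∃ c' : ℝ, c' = δ ^ 2 / 4 := ⟨_, rfl⟩
  have hc'0 : 0 < c' := by rw [hc']; positivity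
  have hc'δ : c' ≤ δ := by rw [hc']; nlinarith
  have hc'c : c' ≤ c / 2 := by rw [hδ] at hc'δ; linarith
  refine ⟨c', hc'0, by linarith, fun n G hS => ?_⟩
  rcases Nat.eq_zero_or_pos n with rfl | hn
  · have h1 : numBal c' G ≤ 1 := by
      unfold numBal
      refine (Finset.card_le_univ _).trans ?_
      simp
    have h2 : (numBal c' G : ℝ) ≤ 1 := by exact_mod_cast h1
    simpa using h2
  have hn1 : (0 : ℝ) < n := by exact_mod_cast hn
  obtain ⟨W, hWn, hW⟩ := hS
  have hc₀1 : c₀ ≤ 1 := by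
    by_contra h
    push Not at h
    have h1 : Module.finrank ℝ W ≤ n := by
      have := Submodule.finrank_le W
      rwa [Module.finrank_fintype_fun_eq_card, Fintype.card_fin] at this
    have h2 : (Module.finrank ℝ W : ℝ) ≤ n := by exact_mod_cast h1
    nlinarith
  have hcc : c = c₀ := by rw [hcd]; exact min_eq_left hc₀1
  rw [← hcc] at hWn hW
  -- the bipartitions with a given set of unbalanced vertices
  set F : (Fin n → Bool) → Finset (Fin n) :=
    fun y => {v | c' ^ 2 * (1 + dg G v) < (ay G y v : ℝ) ^ 2} with hF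
  set S : Finset (Fin n → Bool) := {y : Fin n → Bool | Bal c' G y} with hSd
  set Bs : Finset (Finset (Fin n)) := {T : Finset (Fin n) | (#T : ℝ) ≤ δ ^ 2 / 4 * n} with hBs
  have hmaps : ∀ y ∈ S, F y ∈ Bs := by
    intro y hy
    rw [hSd, Finset.mem_filter] at hy
    rw [hBs, Finset.mem_filter]
    refine ⟨Finset.mem_univ _, ?_⟩
    rw [← hc']
    exact hy.2
  have hfib : ∀ B ∈ Bs, (#(S.filter fun y => F y = B) : ℝ) ≤
      2 ^ n * Real.exp (-(7 / 960) * (c / 2 * n)) := by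
    intro B hB
    rw [hBs, Finset.mem_filter, ← hc'] at hB
    refine fiber hHW hc hc'0.le hc'c G W hWn hW B hB.2 _ fun y hy v hv => ?_
    rw [Finset.mem_filter] at hy
    rw [← hy.2, hF, Finset.mem_filter, not_and] at hv
    exact not_lt.1 (hv (Finset.mem_univ v))
  have hsum : (numBal c' G : ℝ) ≤ #Bs * (2 ^ n * Real.exp (-(7 / 960) * (c / 2 * n))) := by
    have h1 : numBal c' G = #S := rfl
    rw [h1, Finset.card_eq_sum_card_fiberwise hmaps]
    push_cast
    refine (Finset.sum_le_sum hfib).trans ?_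
    rw [Finset.sum_const, nsmul_eq_mul]
  have hBc : (#Bs : ℝ) ≤ Real.exp (δ * n) := hBN δ hδ0 hδ1 n
  have hfin : Real.exp (δ * n) * (2 ^ n * Real.exp (-(7 / 960) * (c / 2 * n))) ≤
      2 ^ ((1 - c') * n) := by
    have e1 : (2 : ℝ) ^ ((1 - c') * n) = 2 ^ n * Real.exp (-(c' * n * Real.log 2)) := by
      rw [Real.rpow_def_of_pos two_pos, ← Real.rpow_natCast 2 n, Real.rpow_def_of_pos two_pos,
        ← Real.exp_add]
      congr 1
      ring
    have e2 : Real.exp (δ * n) * (2 ^ n * Real.exp (-(7 / 960) * (c / 2 * n))) =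
        2 ^ n * Real.exp (-(δ * n)) := by
      rw [mul_left_comm, ← Real.exp_add]
      congr 2
      rw [hδ]
      ring
    rw [e1, e2]
    refine mul_le_mul_of_nonneg_left (Real.exp_le_exp.2 ?_) (by positivity)
    have h1 : Real.log 2 ≤ 1 := by
      have := Real.log_le_sub_one_of_pos (show (0 : ℝ) < 2 by norm_num)
      linarith
    have h2 : c' * n * Real.log 2 ≤ c' * n * 1 := mul_le_mul_of_nonneg_left h1 (by positivity)
    have h3 : c' * n ≤ δ * n := mul_le_mul_of_nonneg_right hc'δ hn1.le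
    linarith
  refine hsum.trans (le_trans ?_ hfin)
  exact mul_le_mul_of_nonneg_right hBc (by positivity)

end Pool.Agent.H35.E0
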