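import Pool.Agent.H88.MC.Targets

/-!
# Module SP: the spectral class (tools)
-/

namespace Pool.Agent.H35.E0

open Finset Pool.Agent.H88.MC

/-- orthogonal projections as matrices -/
theorem proj {n : ℕ} (R : Submodule ℝ (Fin n → ℝ)) : ∃ K : Matrix (Fin n) (Fin n) ℝ,
    K.transpose = K ∧ K * K = K ∧ K.trace = Module.finrank ℝ R ∧
    ∀ z : Fin n → ℝ, ∃ r ∈ R, ∑ v, r v * z v = qf K z ∧ ∑ v, r v ^ 2 = qf K z := by
  set e : EuclideanSpace ℝ (Fin n) ≃ₗ[ℝ] (Fin n → ℝ) := WithLp.linearEquiv 2 ℝ (Fin n → ℝ) with he
  set R' : Submodule ℝ (EuclideanSpace ℝ (Fin n)) := R.map e.symm.toLinearMap with hR'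
  have hfr : Module.finrank ℝ R' = Module.finrank ℝ R := LinearEquiv.finrank_map_eq e.symm R
  set b := stdOrthonormalBasis ℝ R' with hb
  set t := Module.finrank ℝ R' with ht
  let E : Matrix (Fin t) (Fin n) ℝ := fun i v => (b i : EuclideanSpace ℝ (Fin n)) v
  have hE1 : E * E.transpose = 1 := by
    ext i j
    rw [Matrix.mul_apply, Matrix.one_apply]
    have h1 := (orthonormal_iff_ite.1 b.orthonormal) i j
    rw [← h1, Submodule.coe_inner, PiLp.inner_apply]
    refine Finset.sum_congr rfl fun v _ => ?_
    simp [E, mul_comm]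
  have hmem : ∀ i, (fun v => E i v) ∈ R := by
    intro i
    obtain ⟨x, hx, hxe⟩ := Submodule.mem_map.1 (b i).2
    have h2 : (fun v => E i v) = x := by
      have h3 : e (b i : EuclideanSpace ℝ (Fin n)) = x := by
        rw [← hxe]
        exact e.apply_symm_apply x
      rw [← h3]
      rfl
    rw [h2]
    exact hx
  refine ⟨E.transpose * E, ?_, ?_, ?_, fun z => ?_⟩
  · rw [Matrix.transpose_mul, Matrix.transpose_transpose]
  · rw [Matrix.mul_assoc, ← Matrix.mul_assoc E, hE1, Matrix.one_mul]
  · rw [Matrix.trace_mul_comm, hE1, Matrix.trace_one, Fintype.card_fin, hfr]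
  · set a : Fin t → ℝ := fun i => ∑ v, E i v * z v with ha
    have hqf : qf (E.transpose * E) z = ∑ i, a i ^ 2 := by
      unfold qf
      calc ∑ u, ∑ v, (E.transpose * E) u v * z u * z v =
          ∑ u, ∑ v, ∑ i, (E i u * z u) * (E i v * z v) := by
            refine Finset.sum_congr rfl fun u _ => Finset.sum_congr rfl fun v _ => ?_
            rw [Matrix.mul_apply, Finset.sum_mul, Finset.sum_mul]
            refine Finset.sum_congr rfl fun i _ => ?_
            rw [Matrix.transpose_apply]
            ring
        _ = ∑ i, ∑ u, ∑ v, (E i u * z u) * (E i v * z v) := by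
            rw [Finset.sum_comm_cycle]
        _ = ∑ i, a i ^ 2 := by
            refine Finset.sum_congr rfl fun i _ => ?_
            rw [sq, ha, Finset.sum_mul_sum]
    refine ⟨∑ i, a i • (fun v => E i v), Submodule.sum_mem _ fun i _ =>
      Submodule.smul_mem _ _ (hmem i), ?_, ?_⟩
    · rw [hqf]
      calc ∑ v, (∑ i, a i • (fun v => E i v)) v * z v = ∑ v, ∑ i, a i * (E i v * z v) := by
            refine Finset.sum_congr rfl fun v _ => ?_
            rw [Finset.sum_apply, Finset.sum_mul]
            refine Finset.sum_congr rfl fun i _ => ?_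
            rw [Pi.smul_apply, smul_eq_mul, mul_assoc]
        _ = ∑ i, a i ^ 2 := by
            rw [Finset.sum_comm]
            refine Finset.sum_congr rfl fun i _ => ?_
            rw [← Finset.mul_sum, sq]
    · rw [hqf]
      calc ∑ v, (∑ i, a i • (fun v => E i v)) v ^ 2 =
          ∑ v, ∑ i, ∑ j, a i * a j * (E i v * E j v) := by
            refine Finset.sum_congr rfl fun v _ => ?_
            rw [Finset.sum_apply, sq, Finset.sum_mul_sum]
            refine Finset.sum_congr rfl fun i _ => Finset.sum_congr rfl fun j _ => ?_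
            rw [Pi.smul_apply, smul_eq_mul, Pi.smul_apply, smul_eq_mul]
            ring
        _ = ∑ i, ∑ j, ∑ v, a i * a j * (E i v * E j v) := by
            rw [Finset.sum_comm]
            refine Finset.sum_congr rfl fun i _ => ?_
            rw [Finset.sum_comm]
        _ = ∑ i, ∑ j, a i * a j * (E * E.transpose) i j := by
            refine Finset.sum_congr rfl fun i _ => Finset.sum_congr rfl fun j _ => ?_
            rw [← Finset.mul_sum, Matrix.mul_apply]
            rfl
        _ = ∑ i, a i ^ 2 := by
            rw [hE1]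
            refine Finset.sum_congr rfl fun i _ => ?_
            rw [Finset.sum_eq_single i]
            · rw [Matrix.one_apply_eq, mul_one, sq]
            · intro j _ hj
              rw [Matrix.one_apply_ne hj.symm, mul_zero]
            · intro h
              exact absurd (Finset.mem_univ i) h

end Pool.Agent.H35.E0
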